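import Pool.Agent.X215.DH.Reg

/-!
# Cheap cuts

If the law of the couplings has at least a power of `x` as mass of `(0, x)`, then for every `ε` there
are arbitrarily far columns whose longitudinal bonds have total strength less than `ε`.
-/

set_option autoImplicit false

open Finset MeasureTheory ProbabilityTheory

namespace Pool.Agent.X215.DH

open Pool.Agent.TH761.EA Pool.Agent.TH761.EB

/-- the longitudinal bonds -/
def pl {k m : ℕ} : ℤ × (Bx k m ⊕ Empty) → (Fin (k + 1) → ℤ) × Fin (k + 1)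
  | (n, Sum.inl y) => (pt n y, 0)

lemma pl_inj {k m : ℕ} : Function.Injective (pl : ℤ × (Bx k m ⊕ Empty) → _) := by
  rintro ⟨n, y | p⟩ ⟨n', y' | p'⟩ h
  · simp only [pl, Prod.mk.injEq, and_true] at h
    obtain ⟨h1, h2⟩ := pt_inj h
    rw [h1, h2]
  · exact p'.elim
  · exact p.elim
  · exact p.elim

lemma sum_small {k m : ℕ} {ε : ℝ} {f : Bx k m → ℝ}
    (h : ∀ y, 0 < f y ∧ f y < ε / ((2 * m + 1 : ℕ) : ℝ) ^ k) : ∑ y, |f y| < ε := by
  haveI : Nonempty (Bx k m) := ⟨fun _ => ⟨0, by rw [Finset.mem_Icc]; omega⟩⟩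
  have h1 : ∑ y, |f y| < ∑ _y : Bx k m, ε / ((2 * m + 1 : ℕ) : ℝ) ^ k :=
    Finset.sum_lt_sum_of_nonempty Finset.univ_nonempty
      (fun y _ => by rw [abs_of_pos (h y).1]; exact (h y).2)
  rw [Finset.sum_const, Finset.card_univ, card_Bx, nsmul_eq_mul] at h1
  refine h1.trans_le (le_of_eq ?_)
  have h2 : (((2 * m + 1 : ℕ) : ℝ)) ^ k ≠ 0 := pow_ne_zero _ (by positivity)
  rw [Nat.cast_pow]
  field_simp

/-- the numerical estimates -/
lemma numeric2 {k : ℕ} {κ ε : ℝ} {q : ℕ} (hκ : 0 < κ) (hκ1 : κ ≤ 1) (hε : 0 < ε) (hε1 : ε ≤ 1)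
    (t : ℕ) : ∃ C : ℝ, ∀ m : ℕ, ∃ M : ℕ,
      (t : ℝ) ≤ M * (κ * (ε / ((2 * m + 1 : ℕ) : ℝ) ^ k) ^ q) ^
        ((2 * 0 + 2) * Fintype.card (Bx k m ⊕ Empty)) ∧
      ((M : ℝ) + 2) * 2 ≤ Real.exp (C * ((m : ℝ) + 1) ^ (2 * k)) := by
  set A : ℝ := -Real.log κ - q * Real.log ε with hA
  have hA0 : 0 ≤ A := by
    have h1 := Real.log_nonpos hκ.le hκ1
    have h2 := Real.log_nonpos hε.le hε1
    have h3 : (q : ℝ) * Real.log ε ≤ 0 := mul_nonpos_of_nonneg_of_nonpos (Nat.cast_nonneg _) h2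
    rw [hA]; linarith
  set K : ℝ := 2 * (A + q) * 4 ^ k with hK
  have hK0 : 0 ≤ K := by
    have : (0 : ℝ) ≤ q := Nat.cast_nonneg _
    positivity
  refine ⟨K + (2 * t + 6), fun m => ?_⟩
  set u : ℝ := ((m : ℝ) + 1) ^ (2 * k) with hu
  have hm1 : (1 : ℝ) ≤ (m : ℝ) + 1 := by
    have : (0 : ℝ) ≤ m := Nat.cast_nonneg m
    linarith
  have hu1 : 1 ≤ u := one_le_pow₀ hm1
  set W : ℝ := ((2 * m + 1 : ℕ) : ℝ) ^ k with hW
  have hbx : W ≤ 2 ^ k * ((m : ℝ) + 1) ^ k := by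
    rw [hW, ← mul_pow]
    apply pow_le_pow_left₀ (by positivity)
    push_cast; linarith
  have hW1 : (1 : ℝ) ≤ W := one_le_pow₀ (by
    push_cast
    have : (0 : ℝ) ≤ m := Nat.cast_nonneg m
    linarith)
  have hW0 : 0 < W := by linarith
  have hWW : W * W ≤ 4 ^ k * u := by
    have h1 := mul_le_mul hbx hbx hW0.le (by positivity)
    refine h1.trans (le_of_eq ?_)
    have h4 : (4 : ℝ) ^ k = 2 ^ k * 2 ^ k := by rw [← mul_pow]; norm_num
    have h5 : ((m : ℝ) + 1) ^ k * ((m : ℝ) + 1) ^ k = u := by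
      rw [hu, two_mul, pow_add]
    rw [h4, ← h5]; ring
  have hcard : Fintype.card (Bx k m ⊕ Empty) = (2 * m + 1) ^ k := by
    rw [Fintype.card_sum, card_Bx, Fintype.card_empty, add_zero]
  set δ : ℝ := κ * (ε / W) ^ q with hδ
  have hδ0 : 0 < δ := by positivity
  have hlog : Real.log δ = -A - q * Real.log W := by
    rw [hδ, Real.log_mul hκ.ne' (by positivity), Real.log_pow,
      Real.log_div hε.ne' hW0.ne', hA]
    ring
  have hlogW : Real.log W ≤ W := (Real.log_le_sub_one_of_pos hW0).trans (by linarith)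
  have hq0 : (0 : ℝ) ≤ q := Nat.cast_nonneg _
  have hlow : -((A + q) * W) ≤ Real.log δ := by
    rw [hlog]
    have h1 : (q : ℝ) * Real.log W ≤ q * W := mul_le_mul_of_nonneg_left hlogW hq0
    have h2 : A * 1 ≤ A * W := mul_le_mul_of_nonneg_left hW1 hA0
    linarith
  have hpe : Real.exp (-(K * u)) ≤ δ ^ ((2 * 0 + 2) * Fintype.card (Bx k m ⊕ Empty)) := by
    have h1 : δ ^ ((2 * 0 + 2) * Fintype.card (Bx k m ⊕ Empty)) =
        Real.exp (2 * W * Real.log δ) := by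
      rw [← Real.exp_log (pow_pos hδ0 _), Real.log_pow, hcard]
      congr 1
      rw [hW]
      push_cast
      ring
    rw [h1]
    apply Real.exp_le_exp.2
    have h2 : 2 * W * (-((A + q) * W)) ≤ 2 * W * Real.log δ :=
      mul_le_mul_of_nonneg_left hlow (by positivity)
    have h3 : 2 * (A + q) * (W * W) ≤ 2 * (A + q) * (4 ^ k * u) :=
      mul_le_mul_of_nonneg_left hWW (by positivity)
    rw [hK]
    linarith
  set M : ℕ := ⌈(t : ℝ) * Real.exp (K * u)⌉₊ with hM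
  have hM1 : (t : ℝ) * Real.exp (K * u) ≤ M := Nat.le_ceil _
  have hM2 : (M : ℝ) < (t : ℝ) * Real.exp (K * u) + 1 := Nat.ceil_lt_add_one (by positivity)
  refine ⟨M, ?_, ?_⟩
  · have h1 : (t : ℝ) = t * Real.exp (K * u) * Real.exp (-(K * u)) := by
      rw [mul_assoc, ← Real.exp_add, add_neg_cancel, Real.exp_zero, mul_one]
    calc (t : ℝ) = t * Real.exp (K * u) * Real.exp (-(K * u)) := h1
      _ ≤ _ := mul_le_mul hM1 hpe (Real.exp_pos _).le (Nat.cast_nonneg _)
  · have hE : 1 ≤ Real.exp (K * u) := Real.one_le_exp (by positivity)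
    have h1 : ((M : ℝ) + 2) * 2 ≤ (2 * t + 6) * Real.exp (K * u) := by nlinarith
    have h3 : (2 * (t : ℝ) + 6) ≤ Real.exp ((2 * t + 6) * u) := by
      have h4 : (2 * (t : ℝ) + 6) * 1 ≤ (2 * t + 6) * u :=
        mul_le_mul_of_nonneg_left hu1 (by positivity)
      linarith [Real.add_one_le_exp ((2 * (t : ℝ) + 6) * u)]
    calc ((M : ℝ) + 2) * 2 ≤ (2 * t + 6) * Real.exp (K * u) := h1
      _ ≤ Real.exp ((2 * t + 6) * u) * Real.exp (K * u) :=
          mul_le_mul_of_nonneg_right h3 (Real.exp_pos _).le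
      _ = Real.exp ((K + (2 * t + 6)) * u) := by
          rw [← Real.exp_add]
          congr 1
          ring

variable (μ : Measure ℝ) [IsProbabilityMeasure μ]

lemma pl_law (k m : ℕ) :
    (Measure.infinitePi fun _ : (Fin (k + 1) → ℤ) × Fin (k + 1) => μ).map
      (fun J (e : ℤ × (Bx k m ⊕ Empty)) => J (pl e)) = Law (Bx k m) Empty μ := by
  unfold Law
  exact Measure.map_infinitePi_infinitePi_of_inj (P := fun _ => μ) pl_inj

theorem cheap {k : ℕ} {w : ℤ → ℕ} (hw : Long k (fun n => w (n : ℤ))) {c N : ℝ} (hc : 0 < c)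
    (h1 : 0 < μ (Set.Ioo c N)) {κ : ℝ} {q : ℕ} (hκ : 0 < κ)
    (hz : ∀ x : ℝ, 0 < x → x ≤ 1 → ENNReal.ofReal (κ * x ^ q) ≤ μ (Set.Ioo 0 x))
    {ε : ℝ} (hε : 0 < ε) :
    ∀ᵐ J ∂(Measure.infinitePi fun _ : (Fin (k + 1) → ℤ) × Fin (k + 1) => μ),
      ∀ n0 : ℕ, ∃ z : ℤ, (n0 : ℤ) ≤ z ∧ ∑ y : Bx k (w z), |J (pt z y, 0)| < ε := by
  rw [ae_all_iff]
  intro n0
  set P := Measure.infinitePi fun _ : (Fin (k + 1) → ℤ) × Fin (k + 1) => μ with hP
  set b : ℝ := (μ (Set.Ioo c N)).toReal with hbd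
  have hb : 0 < b := ENNReal.toReal_pos h1.ne' (measure_ne_top _ _)
  have hb1 : b ≤ 1 := by
    have := ENNReal.toReal_mono (by simp) (prob_le_one (μ := μ) (s := Set.Ioo c N))
    simpa using this
  set κ' : ℝ := min κ b with hκ'
  have hκ'0 : 0 < κ' := lt_min hκ hb
  have hκ'1 : κ' ≤ 1 := (min_le_right _ _).trans hb1
  set ε' : ℝ := min (min ε c) 1 with hε'
  have hε'0 : 0 < ε' := lt_min (lt_min hε hc) one_pos
  have hε'1 : ε' ≤ 1 := min_le_right _ _
  have hε'c : ε' ≤ c := (min_le_left _ _).trans (min_le_right _ _)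
  have hε'ε : ε' ≤ ε := (min_le_left _ _).trans (min_le_left _ _)
  rw [ae_iff]
  set Bad := {J : (Fin (k + 1) → ℤ) × Fin (k + 1) → ℝ | ¬ ∃ z : ℤ, (n0 : ℤ) ≤ z ∧
    ∑ y : Bx k (w z), |J (pt z y, 0)| < ε} with hBad
  have hbound : ∀ t : ℕ, P Bad ≤ ENNReal.ofReal (Real.exp (-(t : ℝ))) := by
    intro t
    obtain ⟨C, hC⟩ := numeric2 (k := k) (q := q) hκ'0 hκ'1 hε'0 hε'1 t
    obtain ⟨a, ha, hst⟩ := hw C n0
    obtain ⟨M, ht, hlen⟩ := hC (w (a : ℤ))
    set m := w (a : ℤ) with hm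
    set W : ℝ := ((2 * m + 1 : ℕ) : ℝ) ^ k with hW
    have hW1 : (1 : ℝ) ≤ W := one_le_pow₀ (by
      push_cast
      have : (0 : ℝ) ≤ m := Nat.cast_nonneg m
      linarith)
    have hW0 : 0 < W := by linarith
    set η : ℝ := ε' / W with hη
    have hη0 : 0 < η := by positivity
    have hη' : η ≤ ε' := div_le_self hε'0.le hW1
    have hη1 : η ≤ 1 := hη'.trans hε'1
    set δ : ℝ := κ' * η ^ q with hδ
    have hδ0 : 0 < δ := by positivity
    have g0 : ENNReal.ofReal δ ≤ μ (Set.Ioo 0 η) :=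
      (ENNReal.ofReal_le_ofReal (mul_le_mul_of_nonneg_right (min_le_left _ _)
        (by positivity))).trans (hz η hη0 hη1)
    have g1 : ENNReal.ofReal δ ≤ μ (Set.Ioo η N) := by
      have e1 : ENNReal.ofReal δ ≤ ENNReal.ofReal b := by
        apply ENNReal.ofReal_le_ofReal
        calc δ ≤ κ' * 1 := mul_le_mul_of_nonneg_left (pow_le_one₀ hη0.le hη1) hκ'0.le
          _ ≤ b := by rw [mul_one]; exact min_le_right _ _
      rw [hbd, ENNReal.ofReal_toReal (measure_ne_top _ _)] at e1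
      refine e1.trans (measure_mono (Set.Ioo_subset_Ioo_left ?_))
      exact hη'.trans hε'c
    set κi : ℕ → ℤ := fun j => ((a / (2 * 0 + 2) : ℕ) : ℤ) + 2 + j with hκi
    have hκinj : Function.Injective κi := by
      intro i j h
      simp only [hκi] at h
      omega
    have hnone := none_le (V := Bx k m) (I := Empty) μ (c := η) (N := N) 0 κi hκinj
      (pow_nonneg hδ0.le _) (fun z => tr_ge μ hδ0.le g0 g1 0 z) M
    refine le_trans ?_ (hnone.trans ?_)
    · rw [← pl_law μ k m, Measure.map_apply (by fun_prop)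
        (Finset.measurableSet_biInter _ fun j _ => (Tr_meas η N 0 _).compl)]
      refine measure_mono ?_
      intro J hJ
      simp only [Set.mem_preimage, Set.mem_iInter, Set.mem_compl_iff, Set.mem_setOf_eq,
        Finset.mem_range]
      intro j hj hT
      apply hJ
      have d1 : a / 2 * 2 ≤ a := Nat.div_mul_le_self a 2
      have d2 : a < a / 2 * 2 + 2 := Nat.lt_div_mul_add (by norm_num) (a := a)
      have hzz : κi j * (2 * ((0 : ℕ) : ℤ) + 2) = ((a / 2 * 2 + (2 + j) * 2 : ℕ) : ℤ) := by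
        simp only [hκi]; push_cast; ring
      rw [hzz] at hT
      set z : ℕ := a / 2 * 2 + (2 + j) * 2 with hzdef
      have hwz : w (z : ℤ) = m := by
        apply hst z (by omega)
        have h5 : z ≤ a + (M + 2) * 2 := by omega
        have h6 : (z : ℝ) ≤ a + (M + 2) * 2 := by exact_mod_cast h5
        linarith
      refine ⟨(z : ℤ), ?_, ?_⟩
      · have : n0 ≤ z := by omega
        exact_mod_cast this
      · rw [hwz]
        refine (sum_small (f := fun y : Bx k m => J (pt (z : ℤ) y, 0)) (ε := ε') ?_).trans_le hε'ε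
        intro y
        exact hT.low y
    · apply ENNReal.ofReal_le_ofReal
      apply Real.exp_le_exp.2
      linarith
  have hlim : Filter.Tendsto (fun t : ℕ => ENNReal.ofReal (Real.exp (-(t : ℝ)))) Filter.atTop
      (nhds 0) := by
    have h2 : Filter.Tendsto (fun t : ℕ => Real.exp (-(t : ℝ))) Filter.atTop (nhds 0) :=
      Real.tendsto_exp_neg_atTop_nhds_zero.comp tendsto_natCast_atTop_atTop
    have h3 := ENNReal.tendsto_ofReal h2
    rwa [ENNReal.ofReal_zero] at h3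
  exact le_antisymm (ge_of_tendsto' hlim hbound) bot_le

end Pool.Agent.X215.DH
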