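import Pool.Agent.X215.DH.Reg

/-!
# Reflection of the first coordinate
-/

set_option autoImplicit false

open Finset MeasureTheory ProbabilityTheory

namespace Pool.Agent.X215.DH

open Pool.Agent.TH761.EA Pool.Agent.TH761.EB

variable {k : ℕ}

/-- reflection of the sites -/
def rV (v : Fin (k + 1) → ℤ) : Fin (k + 1) → ℤ := Function.update v 0 (-v 0)

lemma rV_zero (v : Fin (k + 1) → ℤ) : rV v 0 = -v 0 := by simp [rV]

lemma rV_succ (v : Fin (k + 1) → ℤ) (i : Fin k) : rV v i.succ = v i.succ := by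
  have h : (i.succ : Fin (k + 1)) ≠ 0 := Fin.succ_ne_zero _
  simp [rV, h]

lemma rV_rV (v : Fin (k + 1) → ℤ) : rV (rV v) = v := by
  funext i
  refine Fin.cases ?_ (fun i => ?_) i
  · rw [rV_zero, rV_zero, neg_neg]
  · rw [rV_succ, rV_succ]

/-- reflection of the bonds -/
def rE (e : (Fin (k + 1) → ℤ) × Fin (k + 1)) : (Fin (k + 1) → ℤ) × Fin (k + 1) :=
  (if e.2 = 0 then rV (bb e) else rV e.1, e.2)

lemma bb_succ_add (v : Fin (k + 1) → ℤ) (i : Fin k) :
    rV (v + Pi.single i.succ 1) = rV v + Pi.single i.succ 1 := by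
  funext j
  have h0 : (0 : Fin (k + 1)) ≠ i.succ := (Fin.succ_ne_zero _).symm
  refine Fin.cases ?_ (fun j => ?_) j
  · rw [rV_zero]
    simp [h0, rV_zero]
  · rw [rV_succ]
    simp [rV_succ]

lemma rE_zero (v : Fin (k + 1) → ℤ) :
    aa (rE (v, 0)) = rV (bb (v, (0 : Fin (k + 1)))) ∧ bb (rE (v, 0)) = rV v := by
  refine ⟨by simp [rE, aa], ?_⟩
  funext j
  refine Fin.cases ?_ (fun j => ?_) j
  · simp [rE, bb, rV_zero]
  · simp [rE, bb, rV_succ]

lemma rE_succ (v : Fin (k + 1) → ℤ) (i : Fin k) :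
    aa (rE (v, i.succ)) = rV v ∧ bb (rE (v, i.succ)) = rV (bb (v, i.succ)) := by
  have h : (i.succ : Fin (k + 1)) ≠ 0 := Fin.succ_ne_zero _
  refine ⟨by simp [rE, aa, h], ?_⟩
  simp [rE, bb, h, bb_succ_add]

lemma rE_rE (e : (Fin (k + 1) → ℤ) × Fin (k + 1)) : rE (rE e) = e := by
  obtain ⟨v, i⟩ := e
  refine Fin.cases ?_ (fun i => ?_) i
  · have h := rE_zero v
    have h2 := (rE_zero (rE (v, 0)).1).1
    have h3 : rE (v, (0 : Fin (k + 1))) = ((rE (v, (0 : Fin (k + 1)))).1, 0) := rfl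
    rw [← h3] at h2
    rw [h.2, rV_rV] at h2
    exact Prod.ext h2 rfl
  · have h := rE_succ v i
    have h2 := (rE_succ (rE (v, i.succ)).1 i).1
    have h3 : rE (v, i.succ) = ((rE (v, i.succ)).1, i.succ) := rfl
    rw [← h3] at h2
    have h4 : (rE (v, i.succ)).1 = rV v := h.1
    rw [h4, rV_rV] at h2
    exact Prod.ext h2 rfl

/-- the reflection of the bonds as an equivalence -/
def rEe : ((Fin (k + 1) → ℤ) × Fin (k + 1)) ≃ ((Fin (k + 1) → ℤ) × Fin (k + 1)) where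
  toFun := rE
  invFun := rE
  left_inv := rE_rE
  right_inv := rE_rE

lemma prod_rE (f : (Fin (k + 1) → ℤ) → ℝ) (e : (Fin (k + 1) → ℤ) × Fin (k + 1)) :
    f (aa (rE e)) * f (bb (rE e)) = f (rV (aa e)) * f (rV (bb e)) := by
  obtain ⟨v, i⟩ := e
  refine Fin.cases ?_ (fun i => ?_) i
  · rw [(rE_zero v).1, (rE_zero v).2, mul_comm]; rfl
  · rw [(rE_succ v i).1, (rE_succ v i).2]; rfl

lemma Cf_refl {R : Set (Fin (k + 1) → ℤ)} {σ : (Fin (k + 1) → ℤ) → ℝ} (h : Cf R σ) :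
    Cf (rV ⁻¹' R) (fun v => σ (rV v)) :=
  ⟨fun v hv => h.1 _ hv, fun v hv => h.2 _ hv⟩

lemma Cf_refl' {R : Set (Fin (k + 1) → ℤ)} {σ : (Fin (k + 1) → ℤ) → ℝ} (h : Cf (rV ⁻¹' R) σ) :
    Cf R (fun v => σ (rV v)) :=
  ⟨fun v hv => h.1 _ (by rw [Set.mem_preimage, rV_rV]; exact hv),
    fun v hv => h.2 _ (by rw [Set.mem_preimage, rV_rV]; exact hv)⟩

/-- The reflection of a ground state is a ground state of the reflected couplings. -/
theorem GS_refl {R : Set (Fin (k + 1) → ℤ)} {J : (Fin (k + 1) → ℤ) × Fin (k + 1) → ℝ}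
    {σ : (Fin (k + 1) → ℤ) → ℝ} (h : GS aa bb R J σ) :
    GS aa bb (rV ⁻¹' R) (fun e => J (rE e)) (fun v => σ (rV v)) := by
  refine ⟨Cf_refl h.1, fun ρ hρ hfin hne => ?_⟩
  have h1 := h.2 (fun v => ρ (rV v)) (Cf_refl' hρ) ?_ ?_
  · rw [← finsum_comp_equiv (rEe (k := k))] at h1
    refine h1.trans_le (le_of_eq ?_)
    refine finsum_congr fun e => ?_
    change J (rE e) * (σ (aa (rE e)) * σ (bb (rE e)) - ρ (rV (aa (rE e))) * ρ (rV (bb (rE e)))) = _
    rw [prod_rE σ e, prod_rE (fun v => ρ (rV v)) e]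
    simp only [rV_rV]
  · refine (hfin.image rV).subset ?_
    intro v hv
    refine ⟨rV v, ?_, rV_rV v⟩
    simp only [Set.mem_setOf_eq] at hv ⊢
    rwa [rV_rV]
  · intro he
    apply hne
    funext v
    have := congrFun he (rV v)
    simp only [rV_rV] at this
    exact this

lemma refl_dh (w : ℤ → ℕ) : rV ⁻¹' (dh k w) = dh k (fun n => w (-n)) := by
  ext v
  simp only [Set.mem_preimage, dh, Set.mem_setOf_eq, rV_zero, rV_succ]

end Pool.Agent.X215.DH
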