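import Pool.Agent.X215.DH.Wall
import Pool.Agent.X215.DH.Cheap
import Pool.Agent.X215.DH.Refl

/-!
# Two-ended horns: existence and uniqueness of the pair of ground states
-/

set_option autoImplicit false

open Finset MeasureTheory ProbabilityTheory

namespace Pool.Agent.X215.DH

open Pool.Agent.TH761.EA Pool.Agent.TH761.EB

variable {k : ℕ} {w : ℤ → ℕ} {J : (Fin (k + 1) → ℤ) × Fin (k + 1) → ℝ}

/-! ### Existence -/

/-- first end of a bond, the orientation depends on the side -/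
def a' (e : (Fin (k + 1) → ℤ) × Fin (k + 1)) : Fin (k + 1) → ℤ := if aa e 0 < 0 then bb e else aa e

/-- second end of a bond, the orientation depends on the side -/
def b' (e : (Fin (k + 1) → ℤ) × Fin (k + 1)) : Fin (k + 1) → ℤ := if aa e 0 < 0 then aa e else bb e

lemma prod_ab (f : (Fin (k + 1) → ℤ) → ℝ) (e : (Fin (k + 1) → ℤ) × Fin (k + 1)) :
    f (a' e) * f (b' e) = f (aa e) * f (bb e) := by
  unfold a' b'
  split_ifs
  · exact mul_comm _ _
  · rfl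

theorem exists_dh (hr : ∀ n : ℤ, 0 ≤ n → w n ≤ w (n + 1)) (hl : ∀ n : ℤ, n < 0 → w n ≤ w (n - 1))
    (hJ : ∀ T1 T2 : Finset ((Fin (k + 1) → ℤ) × Fin (k + 1)), Disjoint T1 T2 →
      (∃ e, e ∈ T1 ∨ e ∈ T2) → ∑ e ∈ T1, J e ≠ ∑ e ∈ T2, J e) :
    ∃ σ, GS aa bb (dh k w) J σ := by
  obtain ⟨σ, hσ⟩ := exists_gs (a := a') (b := b') (R := dh k w) (J := J) (fun x => by
    refine (horn_fib x).subset ?_
    intro e he
    simp only [Set.mem_setOf_eq, a', b'] at he ⊢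
    split_ifs at he
    · exact he.symm
    · exact he) (fun D hD hDR => by
    by_cases hpos : ∃ x ∈ D, 0 ≤ x 0
    · obtain ⟨x, hx, hmax⟩ := Finset.exists_max_image D (fun v => v 0) hD
      obtain ⟨x', hx', hx'0⟩ := hpos
      have hx0 : 0 ≤ x 0 := hx'0.trans (hmax x' hx')
      have h1 : bb (x, (0 : Fin (k + 1))) 0 = x 0 + 1 := by simp [bb]
      have hn : ¬ aa (x, (0 : Fin (k + 1))) 0 < 0 := by simp only [aa]; omega
      refine ⟨(x, 0), ?_, ?_, ?_⟩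
      · rw [a', if_neg hn]; exact hx
      · rw [b', if_neg hn]
        intro i
        have h2 : bb (x, (0 : Fin (k + 1))) i.succ = x i.succ := by simp [bb]
        rw [h1, h2]
        exact (hDR hx i).trans (by exact_mod_cast hr _ hx0)
      · rw [b', if_neg hn]
        intro hc
        have := hmax _ hc
        simp only [h1] at this
        omega
    · push Not at hpos
      obtain ⟨x, hx, hmin⟩ := Finset.exists_min_image D (fun v => v 0) hD
      have hx0 : x 0 < 0 := hpos x hx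
      set y : Fin (k + 1) → ℤ := x - Pi.single 0 1 with hy
      have hy0 : y 0 = x 0 - 1 := by simp [hy]
      have hbb : bb (y, (0 : Fin (k + 1))) = x := by simp [bb, hy]
      have hn : aa (y, (0 : Fin (k + 1))) 0 < 0 := by simp only [aa]; omega
      refine ⟨(y, 0), ?_, ?_, ?_⟩
      · rw [a', if_pos hn, hbb]; exact hx
      · rw [b', if_pos hn]
        intro i
        have h2 : y i.succ = x i.succ := by simp [hy]
        change |y i.succ| ≤ (w (y 0) : ℤ)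
        rw [h2, hy0]
        exact (hDR hx i).trans (by exact_mod_cast hl _ hx0)
      · rw [b', if_pos hn]
        intro hc
        have h3 := hmin _ hc
        change x 0 ≤ y 0 at h3
        omega) hJ
  refine ⟨σ, hσ.1, fun ρ h1 h2 h3 => ?_⟩
  have h4 := hσ.2 ρ h1 h2 h3
  simp only [prod_ab σ, prod_ab ρ] at h4
  exact h4

/-! ### Uniqueness -/

theorem unique_dh {σ τ : (Fin (k + 1) → ℤ) → ℝ} (hσ : GS aa bb (dh k w) J σ)
    (hτ : GS aa bb (dh k w) J τ) (hR : ∀ n0 : ℤ, ∃ z : ℤ, n0 ≤ z ∧ Pin k w J z)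
    (hL : ∀ n0 : ℤ, ∃ z : ℤ, z ≤ n0 ∧ Pin k w J z)
    (hgen : ∀ T1 T2 : Finset ((Fin (k + 1) → ℤ) × Fin (k + 1)), Disjoint T1 T2 →
      (∃ e, e ∈ T1 ∨ e ∈ T2) → ∑ e ∈ T1, J e ≠ ∑ e ∈ T2, J e)
    (hcheap : ∀ ε : ℝ, 0 < ε → ∀ n0 : ℤ, ∃ z : ℤ, n0 ≤ z ∧ ∑ y : Bx k (w z), |J (pt z y, 0)| < ε) :
    τ = σ ∨ τ = -σ := by
  have hrel : ∀ z : ℤ, σ (cen k z) = 1 * τ (cen k z) ∨ σ (cen k z) = -1 * τ (cen k z) := by
    intro z
    rcases hσ.1.1 _ (cen_dh w z) with h | h <;> rcases hτ.1.1 _ (cen_dh w z) with h' | h' <;>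
      rw [h, h'] <;> norm_num
  -- one of the two signs occurs arbitrarily far to the right
  have hright : ∃ r : ℝ, (r = 1 ∨ r = -1) ∧ ∀ n0 : ℤ, ∃ z : ℤ, n0 ≤ z ∧ Pin k w J z ∧
      σ (cen k z) = r * τ (cen k z) := by
    by_cases h : ∀ n0 : ℤ, ∃ z : ℤ, n0 ≤ z ∧ Pin k w J z ∧ σ (cen k z) = 1 * τ (cen k z)
    · exact ⟨1, Or.inl rfl, h⟩
    · push Not at h
      obtain ⟨n1, hn1⟩ := h
      refine ⟨-1, Or.inr rfl, fun n0 => ?_⟩
      obtain ⟨z, hz, hp⟩ := hR (max n0 n1)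
      exact ⟨z, (le_max_left _ _).trans hz, hp,
        (hrel z).resolve_left (hn1 z ((le_max_right _ _).trans hz) hp)⟩
  have hleft : ∃ r : ℝ, (r = 1 ∨ r = -1) ∧ ∀ n0 : ℤ, ∃ z : ℤ, z ≤ n0 ∧ Pin k w J z ∧
      σ (cen k z) = r * τ (cen k z) := by
    by_cases h : ∀ n0 : ℤ, ∃ z : ℤ, z ≤ n0 ∧ Pin k w J z ∧ σ (cen k z) = 1 * τ (cen k z)
    · exact ⟨1, Or.inl rfl, h⟩
    · push Not at h
      obtain ⟨n1, hn1⟩ := h
      refine ⟨-1, Or.inr rfl, fun n0 => ?_⟩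
      obtain ⟨z, hz, hp⟩ := hL (min n0 n1)
      exact ⟨z, hz.trans (min_le_left _ _), hp,
        (hrel z).resolve_left (hn1 z (hz.trans (min_le_right _ _)) hp)⟩
  obtain ⟨r, hr, hr'⟩ := hright
  obtain ⟨s, hs, hs'⟩ := hleft
  obtain ⟨za, -, hza, hza'⟩ := hr' 0
  obtain ⟨zb, -, hzb, hzb'⟩ := hs' 0
  have hRt : ∀ v : Fin (k + 1) → ℤ, za ≤ v 0 → σ v = r * τ v := by
    intro v hv
    obtain ⟨z, hz, hp, hz'⟩ := hr' (v 0)
    exact agree_between hσ hτ hza hp hr hza' hz' v hv hz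
  have hLt : ∀ v : Fin (k + 1) → ℤ, v 0 ≤ zb → σ v = s * τ v := by
    intro v hv
    obtain ⟨z, hz, hp, hz'⟩ := hs' (v 0)
    exact agree_between hσ hτ hp hzb hs hz' hzb' v hz hv
  by_cases hrs : r = s
  · have hall : ∀ v, σ v = r * τ v := by
      intro v
      obtain ⟨z, hz, hp, hz'⟩ := hr' (v 0)
      obtain ⟨y, hy, hq, hy'⟩ := hs' (v 0)
      rw [← hrs] at hy'
      exact agree_between hσ hτ hq hp hr hy' hz' v hy hz
    rcases hr with h | h
    · left; funext v; rw [hall v, h, one_mul]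
    · right; funext v; rw [Pi.neg_apply, hall v, h]; ring
  · exfalso
    have hsr : s = -r := by
      rcases hr with h | h <;> rcases hs with h' | h' <;> rw [h, h'] at hrs ⊢ <;>
        first | exact absurd rfl hrs | norm_num
    rcases hr with h | h
    · refine no_wall hσ hτ (za := za) (zb := zb) (fun v hv => ?_) (fun v hv => ?_) hgen hcheap
      · rw [hRt v hv, h, one_mul]
      · rw [hLt v hv, hsr, h]; ring
    · refine no_wall hσ hτ.neg (za := za) (zb := zb) (fun v hv => ?_) (fun v hv => ?_) hgen hcheap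
      · rw [hRt v hv, h, Pi.neg_apply]; ring
      · rw [hLt v hv, hsr, h, Pi.neg_apply]; ring

/-! ### The theorem -/

variable (μ : Measure ℝ) [IsProbabilityMeasure μ]

lemma rE_law (k : ℕ) :
    (Measure.infinitePi fun _ : (Fin (k + 1) → ℤ) × Fin (k + 1) => μ).map
      (fun J (e : (Fin (k + 1) → ℤ) × Fin (k + 1)) => J (rE e)) =
      Measure.infinitePi fun _ : (Fin (k + 1) → ℤ) × Fin (k + 1) => μ :=
  Measure.map_infinitePi_infinitePi_of_inj (P := fun _ => μ) (rEe (k := k)).injective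

/-- pinned columns far to the right -/
theorem pins_right {w : ℤ → ℕ} (hw : Long k (fun n => w (n : ℤ))) {c N : ℝ} (hc : 0 < c)
    (hcN : c < N) (h0 : 0 < μ (Set.Ioo 0 c)) (h1 : 0 < μ (Set.Ioo c N)) :
    ∀ᵐ J ∂(Measure.infinitePi fun _ : (Fin (k + 1) → ℤ) × Fin (k + 1) => μ),
      ∀ n0 : ℤ, ∃ z : ℤ, n0 ≤ z ∧ Pin k w J z := by
  filter_upwards [pins μ hw hc hcN h0 h1] with J hJ n0
  obtain ⟨z, hz, m, L, hL, hst, hT⟩ := hJ n0.toNat
  refine ⟨z, by omega, fun ρ hρ v v' hv hv' hv0 hv0' => ?_⟩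
  refine pin_of_tr2 hc hL (fun n hn1 hn2 => ?_) hT hρ hv hv' hv0 hv0'
  have h := hst n hn1 hn2
  have h2 := h.2
  rw [Int.toNat_of_nonneg h.1] at h2
  exact h2

/-- pinned columns far to the left -/
theorem pins_left {w : ℤ → ℕ} (hw : Long k (fun n => w (-(n : ℤ)))) {c N : ℝ} (hc : 0 < c)
    (hcN : c < N) (h0 : 0 < μ (Set.Ioo 0 c)) (h1 : 0 < μ (Set.Ioo c N)) :
    ∀ᵐ J ∂(Measure.infinitePi fun _ : (Fin (k + 1) → ℤ) × Fin (k + 1) => μ),
      ∀ n0 : ℤ, ∃ z : ℤ, z ≤ n0 ∧ Pin k w J z := by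
  have h := pins_right (k := k) μ (w := fun n => w (-n)) hw hc hcN h0 h1
  rw [← rE_law μ k] at h
  have h2 := ae_of_ae_map (measurable_pi_lambda _ fun e => measurable_pi_apply _).aemeasurable h
  filter_upwards [h2] with J hJ n0
  obtain ⟨z, hz, hp⟩ := hJ (-n0)
  refine ⟨-z, by omega, fun ρ hρ v v' hv hv' hv0 hv0' => ?_⟩
  have h3 := GS_refl hρ
  rw [refl_dh] at h3
  have h4 := hp _ h3 (rV v) (rV v') (by rw [← refl_dh, Set.mem_preimage, rV_rV]; exact hv)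
    (by rw [← refl_dh, Set.mem_preimage, rV_rV]; exact hv') (by rw [rV_zero]; omega)
    (by rw [rV_zero]; omega)
  simp only [rV_rV] at h4
  exact h4

omit [IsProbabilityMeasure μ] in
lemma half_mass (hat : ∀ x : ℝ, μ {x} = 0) (hsym : μ.map (fun x => -x) = μ) (x : ℝ) (hx : 0 < x) :
    μ (Set.Ioo (-x) x) = 2 * μ (Set.Ioo 0 x) := by
  have h1 : μ (Set.Ioo (-x) 0) = μ (Set.Ioo 0 x) := by
    conv_lhs => rw [← hsym]
    rw [Measure.map_apply measurable_neg measurableSet_Ioo]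
    congr 1
    ext y
    simp only [Set.mem_preimage, Set.mem_Ioo]
    constructor <;> rintro ⟨a, b⟩ <;> constructor <;> linarith
  have h2 : Set.Ioo (-x) x = Set.Ioo (-x) 0 ∪ {0} ∪ Set.Ioo 0 x := by
    ext y
    simp only [Set.mem_Ioo, Set.mem_union, Set.mem_singleton_iff]
    constructor
    · rintro ⟨a, b⟩
      rcases lt_trichotomy y 0 with h | h | h
      · exact Or.inl (Or.inl ⟨a, h⟩)
      · exact Or.inl (Or.inr h)
      · exact Or.inr ⟨h, b⟩
    · rintro ((⟨a, b⟩ | h) | ⟨a, b⟩)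
      · exact ⟨a, by linarith⟩
      · rw [h]; exact ⟨by linarith, hx⟩
      · exact ⟨by linarith, b⟩
  rw [h2, measure_union _ measurableSet_Ioo, measure_union _ (measurableSet_singleton _), h1, hat]
  · ring
  · rw [Set.disjoint_left]
    rintro y ⟨-, hy⟩ hy2
    rw [Set.mem_singleton_iff] at hy2
    linarith
  · rw [Set.disjoint_left]
    rintro y hy ⟨hy2, -⟩
    rcases hy with ⟨-, hy⟩ | hy
    · linarith
    · rw [Set.mem_singleton_iff] at hy; linarith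

theorem main (hk : 1 ≤ k) {w : ℤ → ℕ} (hr : Monotone fun n : ℕ => w n)
    (hl : Monotone fun n : ℕ => w (-n))
    (hgr : Filter.Tendsto (fun n : ℕ => (w n : ℝ) ^ (2 * k) / Real.log n) Filter.atTop (nhds 0))
    (hgl : Filter.Tendsto (fun n : ℕ => (w (-n) : ℝ) ^ (2 * k) / Real.log n) Filter.atTop (nhds 0))
    (hat : ∀ x : ℝ, μ {x} = 0) (hsym : μ.map (fun x => -x) = μ)
    {κ : ℝ} {q : ℕ} (hκ : 0 < κ)
    (hz : ∀ x : ℝ, 0 < x → x ≤ 1 → ENNReal.ofReal (κ * x ^ q) ≤ μ (Set.Ioo (-x) x)) :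
    ∀ᵐ J ∂(Measure.infinitePi fun _ : (Fin (k + 1) → ℤ) × Fin (k + 1) => μ),
      ∃ σ : (Fin (k + 1) → ℤ) → ℝ, {ρ | GS aa bb (dh k w) J ρ} = {σ, -σ} := by
  obtain ⟨c, N, hc, hcN, h0, h1⟩ := two_windows μ hat hsym
  have hLr : Long k (fun n => w (n : ℤ)) := long_of_growth hk hr hgr
  have hLl : Long k (fun n => w (-(n : ℤ))) := long_of_growth hk hl hgl
  have hz' : ∀ x : ℝ, 0 < x → x ≤ 1 → ENNReal.ofReal (κ / 2 * x ^ q) ≤ μ (Set.Ioo 0 x) := by
    intro x hx hx1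
    have h2 := hz x hx hx1
    rw [half_mass μ hat hsym x hx] at h2
    have h3 : κ * x ^ q = 2 * (κ / 2 * x ^ q) := by ring
    rw [h3, ENNReal.ofReal_mul (by norm_num : (0 : ℝ) ≤ 2), ENNReal.ofReal_ofNat] at h2
    exact (ENNReal.mul_le_mul_iff_right (by norm_num) (by norm_num)).1 h2
  have hch : ∀ᵐ J ∂(Measure.infinitePi fun _ : (Fin (k + 1) → ℤ) × Fin (k + 1) => μ),
      ∀ j : ℕ, ∀ n0 : ℕ, ∃ z : ℤ, (n0 : ℤ) ≤ z ∧
        ∑ y : Bx k (w z), |J (pt z y, 0)| < 1 / ((j : ℝ) + 1) := by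
    rw [ae_all_iff]
    intro j
    exact cheap μ hLr hc h1 (by positivity) hz' (by positivity)
  filter_upwards [gen_ae μ hat ((Fin (k + 1) → ℤ) × Fin (k + 1)),
    pins_right μ hLr hc hcN h0 h1, pins_left μ hLl hc hcN h0 h1, hch] with J hg hpR hpL hcJ
  obtain ⟨σ, hσ⟩ := exists_dh (k := k) (w := w) (fun n hn => by
    have h5 := hr (Nat.le_succ n.toNat)
    simp only [Nat.succ_eq_add_one, Nat.cast_add, Nat.cast_one, Int.toNat_of_nonneg hn] at h5
    exact h5) (fun n hn => by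
    have h5 := hl (Nat.le_succ (-n).toNat)
    simp only [Nat.succ_eq_add_one, Nat.cast_add, Nat.cast_one,
      Int.toNat_of_nonneg (show 0 ≤ -n by omega), neg_neg] at h5
    have e : -(-n + 1) = n - 1 := by ring
    rw [e] at h5
    exact h5) hg
  refine ⟨σ, ?_⟩
  ext ρ
  constructor
  · intro hρ
    refine unique_dh hσ hρ hpR hpL hg fun ε hε n0 => ?_
    obtain ⟨j, hj⟩ := exists_nat_one_div_lt hε
    obtain ⟨z, hz1, hz2⟩ := hcJ j n0.toNat
    exact ⟨z, by omega, hz2.trans hj⟩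
  · rintro (h | h)
    · rw [h]; exact hσ
    · rw [h]; exact hσ.neg

end Pool.Agent.X215.DH
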