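import Pool.Agent.TH761.EB.Grow

/-!
# Two-ended horns in `ℤ^(k+1)`: local optimality and pinned columns
-/

set_option autoImplicit false

open Finset MeasureTheory ProbabilityTheory

namespace Pool.Agent.X215.DH

open Pool.Agent.TH761.EA Pool.Agent.TH761.EB

/-- the two-ended horn of width `w` -/
def dh (k : ℕ) (w : ℤ → ℕ) : Set (Fin (k + 1) → ℤ) :=
  {v | ∀ i : Fin k, |v i.succ| ≤ (w (v 0) : ℤ)}

lemma mem_dh {k : ℕ} {w : ℤ → ℕ} {m : ℕ} {n : ℤ} (hw : w n = m) (y : Bx k m) :
    pt n y ∈ dh k w := by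
  intro i
  rw [pt_succ, pt_zero, hw]
  exact abs_le.2 (Finset.mem_Icc.1 (y i).2)

lemma dh_pt {k : ℕ} {w : ℤ → ℕ} {m : ℕ} {v : Fin (k + 1) → ℤ} (hv : v ∈ dh k w)
    (hw : w (v 0) = m) : pt (v 0) (pr m v) = v :=
  pt_pr fun i => by rw [← hw]; exact hv i

/-- A ground state of the two-ended horn is locally optimal on stretches of constant width. -/
theorem grOn2 {k : ℕ} {w : ℤ → ℕ} {m : ℕ} {J : (Fin (k + 1) → ℤ) × Fin (k + 1) → ℝ}
    {σ : (Fin (k + 1) → ℤ) → ℝ} (hσ : GS aa bb (dh k w) J σ) {P Q : ℤ}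
    (hPQ : ∀ n, P ≤ n → n ≤ Q → w n = m) :
    GrOn (bs : Bi k m → Bx k m) bt (fun e => J (ph e))
      (fun v => if P ≤ v.1 ∧ v.1 ≤ Q then σ (pt v.1 v.2) else 1) P Q := by
  classical
  set σ' : ℤ × Bx k m → ℝ := fun v => if P ≤ v.1 ∧ v.1 ≤ Q then σ (pt v.1 v.2) else 1 with hσ'
  have hσ'v : ∀ n y, P ≤ n → n ≤ Q → σ (pt n y) = σ' (n, y) := by
    intro n y h1 h2
    simp [hσ', h1, h2]
  refine ⟨?_, ?_⟩
  · rintro ⟨n, y⟩
    simp only [hσ']
    split_ifs with h
    · have h1 := hPQ n h.1 h.2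
      exact hσ.1.1 _ (mem_dh h1 y)
    · exact Or.inl rfl
  · intro p q ρ' hPp hqQ hρ' hb hne
    set ρ : (Fin (k + 1) → ℤ) → ℝ := fun v =>
      if p < v 0 ∧ v 0 < q ∧ v ∈ dh k w then ρ' (v 0, pr m v) else σ v with hρ
    have hρv : ∀ n y, p ≤ n → n ≤ q → ρ (pt n y) = ρ' (n, y) := by
      intro n y h1 h2
      have h3 := hPQ n (by omega) (by omega)
      have h4 : pt n y ∈ dh k w := mem_dh h3 y
      by_cases h5 : p < n ∧ n < q
      · simp only [hρ, pt_zero, h5.1, h5.2, h4, and_self, if_true, pr_pt]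
      · have h6 : ¬ (p < n ∧ n < q ∧ pt n y ∈ dh k w) := fun h => h5 ⟨h.1, h.2.1⟩
        simp only [hρ, pt_zero, h6, if_false]
        rw [hb n y (by omega)]
        exact hσ'v n y (by omega) (by omega)
    have hCρ : Cf (dh k w) ρ := by
      refine ⟨fun v hv => ?_, fun v hv => ?_⟩
      · simp only [hρ]
        split_ifs
        · exact hρ' _
        · exact hσ.1.1 v hv
      · have : ¬ (p < v 0 ∧ v 0 < q ∧ v ∈ dh k w) := fun h => hv h.2.2
        simp only [hρ, this, if_false]
        exact hσ.1.2 v hv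
    have hoff : ∀ v, ρ v ≠ σ v → p < v 0 ∧ v 0 < q ∧ v ∈ dh k w := by
      intro v hv
      by_contra hc
      apply hv
      simp only [hρ, hc, if_false]
    have hfin : {v | ρ v ≠ σ v}.Finite := by
      refine (Finset.finite_toSet ((Ioo p q ×ˢ (Finset.univ : Finset (Bx k m))).image
        (fun v => pt v.1 v.2))).subset ?_
      intro v hv
      have h1 := hoff v hv
      rw [Finset.mem_coe, Finset.mem_image]
      refine ⟨(v 0, pr m v), ?_, dh_pt h1.2.2 (hPQ (v 0) (by omega) (by omega))⟩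
      rw [Finset.mem_product, Finset.mem_Ioo]
      exact ⟨⟨h1.1, h1.2.1⟩, Finset.mem_univ _⟩
    have hρσ : ρ ≠ σ := by
      intro he
      apply hne
      funext ⟨n, y⟩
      by_cases hn : n ≤ p ∨ q ≤ n
      · exact hb n y hn
      · push Not at hn
        rw [← hρv n y hn.1.le hn.2.le, he, hσ'v n y (by omega) (by omega)]
    have hlt := hσ.2 ρ hCρ hfin hρσ
    have hfs : ∑ᶠ e, J e * (σ (aa e) * σ (bb e) - ρ (aa e) * ρ (bb e)) =
        S bs bt (fun e => J (ph e)) σ' p q - S bs bt (fun e => J (ph e)) ρ' p q := by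
      rw [finsum_eq_sum_of_support_subset (s := (Ico p q ×ˢ
        (Finset.univ : Finset (Bx k m ⊕ Bi k m))).image ph)]
      · rw [Finset.sum_image (fun x _ y _ h => ph_inj h)]
        unfold S en
        rw [Finset.sum_product, ← Finset.sum_sub_distrib]
        refine Finset.sum_congr rfl fun n hn => ?_
        rw [← Finset.sum_sub_distrib]
        refine Finset.sum_congr rfl fun c _ => ?_
        rw [val_ph (p := p) (q := q) (fun n y h1 h2 => hσ'v n y (by omega) (by omega)) (n, c) hn,
          val_ph (p := p) (q := q) (fun n y h1 h2 => hρv n y h1 h2) (n, c) hn]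
        ring
      · rintro ⟨v, i⟩ he
        rw [Function.mem_support] at he
        have hR : v ∈ dh k w ∧ v + Pi.single i 1 ∈ dh k w := by
          constructor
          · by_contra hc
            apply he
            simp only [aa, hσ.1.2 v hc, hCρ.2 v hc, zero_mul, sub_self, mul_zero]
          · by_contra hc
            apply he
            simp only [bb, hσ.1.2 _ hc, hCρ.2 _ hc, mul_zero, sub_self]
        have hor : ρ v ≠ σ v ∨ ρ (v + Pi.single i 1) ≠ σ (v + Pi.single i 1) := by
          by_contra hc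
          push Not at hc
          apply he
          simp only [aa, bb, hc.1, hc.2, sub_self, mul_zero]
        rw [Finset.mem_coe, Finset.mem_image]
        revert hR hor he
        refine Fin.cases ?_ (fun j => ?_) i
        · intro he hR hor
          have h1 : (v + (Pi.single 0 1 : Fin (k + 1) → ℤ)) 0 = v 0 + 1 := by simp
          have h2 : p ≤ v 0 ∧ v 0 < q := by
            rcases hor with h | h
            · have := hoff _ h; omega
            · have := hoff _ h; rw [h1] at this; omega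
          refine ⟨(v 0, Sum.inl (pr m v)), ?_, ?_⟩
          · rw [Finset.mem_product, Finset.mem_Ico]
            exact ⟨h2, Finset.mem_univ _⟩
          · simp only [ph]
            rw [dh_pt hR.1 (hPQ (v 0) (by omega) (by omega))]
        · intro he hR hor
          have h1 : (v + (Pi.single j.succ 1 : Fin (k + 1) → ℤ)) 0 = v 0 := by
            have h0 : (0 : Fin (k + 1)) ≠ j.succ := (Fin.succ_ne_zero _).symm
            simp [h0]
          have h2 : p < v 0 ∧ v 0 < q := by
            rcases hor with h | h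
            · have := hoff _ h; exact ⟨this.1, this.2.1⟩
            · have := hoff _ h; rw [h1] at this; exact ⟨this.1, this.2.1⟩
          have h3 := hPQ (v 0) (by omega) (by omega)
          have h4 := hR.2 j
          have h5 : (v + (Pi.single j.succ 1 : Fin (k + 1) → ℤ)) j.succ = v j.succ + 1 := by
            simp
          rw [h1, h5, h3, abs_le] at h4
          have h6 := hR.1 j
          rw [h3, abs_le] at h6
          refine ⟨(v 0, Sum.inr ⟨(pr m v, j), ?_⟩), ?_, ?_⟩
          · simp only [pr]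
            rw [min_eq_right h6.2, max_eq_right h6.1]
            omega
          · rw [Finset.mem_product, Finset.mem_Ico]
            exact ⟨⟨h2.1.le, h2.2⟩, Finset.mem_univ _⟩
          · simp only [ph]
            rw [dh_pt hR.1 h3]
    rw [hfs] at hlt
    linarith


/-- Pinning blocks pin the columns of ground states. -/
theorem pin_of_tr2 {k : ℕ} {w : ℤ → ℕ} {m : ℕ} {J : (Fin (k + 1) → ℤ) × Fin (k + 1) → ℝ}
    {c N : ℝ} {L : ℕ} (hc : 0 < c) (hL : 2 * N * Fintype.card (Bx k m) < c * ((L : ℝ) - 1))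
    {z : ℤ} (hw : ∀ n, z - L ≤ n → n ≤ z + L + 1 → w n = m)
    (hT : Tr c N L (fun e : ℤ × (Bx k m ⊕ Bi k m) => J (ph e)) z)
    {ρ : (Fin (k + 1) → ℤ) → ℝ} (hρ : GS aa bb (dh k w) J ρ) {v v' : Fin (k + 1) → ℤ}
    (hv : v ∈ dh k w) (hv' : v' ∈ dh k w) (h0 : v 0 = z) (h0' : v' 0 = z) : ρ v = ρ v' := by
  have h1 := pinned (s := (bs : Bi k m → Bx k m)) (t := bt) hc hL bx_conn hT
    (grOn2 hρ hw) (pr m v) (pr m v')
  have h2 : z - (L : ℤ) ≤ z ∧ z ≤ z + L + 1 := by omega
  simp only [h2, and_self, if_true] at h1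
  have h3 := hw z h2.1 h2.2
  rw [← h0] at h3
  have h4 := dh_pt hv h3
  rw [h0] at h4
  rw [h0, ← h0'] at h3
  have h5 := dh_pt hv' h3
  rw [h0'] at h5
  rw [h4, h5] at h1
  exact h1

end Pool.Agent.X215.DH
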