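import Pool.Agent.X215.DH.Reg

/-!
# Two-ended horns: existence of ground states, no domain walls between the ends
-/

set_option autoImplicit false

open Finset MeasureTheory ProbabilityTheory

namespace Pool.Agent.X215.DH

open Pool.Agent.TH761.EA Pool.Agent.TH761.EB

variable {k : ℕ} {w : ℤ → ℕ} {J : (Fin (k + 1) → ℤ) × Fin (k + 1) → ℝ}

lemma dh_fin (w : ℤ → ℕ) (p q : ℤ) : (dh k w ∩ {v | p ≤ v 0 ∧ v 0 ≤ q}).Finite := by
  classical
  refine (Finset.finite_toSet ((Icc p q).biUnion fun n =>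
    (Finset.univ : Finset (Bx k (w n))).image (pt n))).subset ?_
  rintro v ⟨hv, hz⟩
  rw [Finset.mem_coe, Finset.mem_biUnion]
  refine ⟨v 0, Finset.mem_Icc.2 hz, ?_⟩
  rw [Finset.mem_image]
  exact ⟨_, Finset.mem_univ _, dh_pt hv rfl⟩

lemma cen_dh (w : ℤ → ℕ) (z : ℤ) : cen k z ∈ dh k w := by
  intro i
  simp [cen]

lemma bb_cen (z : ℤ) : bb (cen k z, (0 : Fin (k + 1))) = cen k (z + 1) := by
  funext i
  refine Fin.cases ?_ (fun i => ?_) i
  · simp [bb, cen]
  · simp [bb, cen]

/-- all ground states are constant on the column `z` -/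
def Pin (k : ℕ) (w : ℤ → ℕ) (J : (Fin (k + 1) → ℤ) × Fin (k + 1) → ℝ) (z : ℤ) : Prop :=
  ∀ ρ, GS aa bb (dh k w) J ρ → ∀ v v', v ∈ dh k w → v' ∈ dh k w → v 0 = z → v' 0 = z → ρ v = ρ v'

lemma agree_between {σ τ : (Fin (k + 1) → ℤ) → ℝ} (hσ : GS aa bb (dh k w) J σ)
    (hτ : GS aa bb (dh k w) J τ) {p q : ℤ} (hp : Pin k w J p) (hq : Pin k w J q) {r : ℝ}
    (hr : r = 1 ∨ r = -1) (h1 : σ (cen k p) = r * τ (cen k p))
    (h2 : σ (cen k q) = r * τ (cen k q)) (v : Fin (k + 1) → ℤ) (hv1 : p ≤ v 0) (hv2 : v 0 ≤ q) :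
    σ v = r * τ v := by
  have hcol : ∀ z, Pin k w J z → σ (cen k z) = r * τ (cen k z) → ∀ v, v 0 = z →
      σ v = r * τ v := by
    intro z hz h v hv
    by_cases hR : v ∈ dh k w
    · rw [hz σ hσ _ _ hR (cen_dh w z) hv rfl, hz τ hτ _ _ hR (cen_dh w z) hv rfl, h]
    · rw [hσ.1.2 _ hR, hτ.1.2 _ hR, mul_zero]
  refine agree hσ hτ hr (Λ := {v | p ≤ v 0 ∧ v 0 ≤ q}) (dh_fin w p q) ?_ ?_ v ⟨hv1, hv2⟩
  · intro e ha hb
    have ha' : p ≤ aa e 0 ∧ aa e 0 ≤ q := ha
    have hb' : ¬ (p ≤ bb e 0 ∧ bb e 0 ≤ q) := hb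
    exact hcol q hq h2 _ (by rcases bb_zero e with h | h <;> omega)
  · intro e hb ha
    have ha' : ¬ (p ≤ aa e 0 ∧ aa e 0 ≤ q) := ha
    have hb' : p ≤ bb e 0 ∧ bb e 0 ≤ q := hb
    exact hcol p hp h1 _ (by rcases bb_zero e with h | h <;> omega)

/-- the strength of a flat cut -/
lemma cut_le {σ : (Fin (k + 1) → ℤ) → ℝ} (hσ : Cf (dh k w) σ) (n : ℤ) :
    |∑ᶠ e : (Fin (k + 1) → ℤ) × Fin (k + 1), (if aa e 0 = n ∧ bb e 0 = n + 1 then
      2 * (J e * (σ (aa e) * σ (bb e))) else 0)| ≤ 2 * ∑ y : Bx k (w n), |J (pt n y, 0)| ∧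
    {e : (Fin (k + 1) → ℤ) × Fin (k + 1) | (if aa e 0 = n ∧ bb e 0 = n + 1 then
      2 * (J e * (σ (aa e) * σ (bb e))) else 0) ≠ 0}.Finite := by
  classical
  set g : (Fin (k + 1) → ℤ) × Fin (k + 1) → ℝ := fun e => if aa e 0 = n ∧ bb e 0 = n + 1 then
      2 * (J e * (σ (aa e) * σ (bb e))) else 0 with hg
  set ι : Bx k (w n) → (Fin (k + 1) → ℤ) × Fin (k + 1) := fun y => (pt n y, 0) with hι
  have hsub : Function.support g ⊆ ((Finset.univ.image ι : Finset _) : Set _) := by
    rintro ⟨v, i⟩ he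
    rw [Function.mem_support] at he
    simp only [hg] at he
    by_cases hc : aa (v, i) 0 = n ∧ bb (v, i) 0 = n + 1
    · rw [if_pos hc] at he
      have hv : v ∈ dh k w := by
        by_contra hcon
        apply he
        simp only [aa, hσ.2 v hcon, zero_mul, mul_zero]
      have hv0 : v 0 = n := hc.1
      have hi : i = 0 := by
        have h2 := hc.2
        have h1 := hc.1
        simp only [bb, aa] at h1 h2
        by_contra hne
        have h0 : (0 : Fin (k + 1)) ≠ i := fun h => hne h.symm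
        simp [h0] at h2
        omega
      rw [Finset.coe_image, Finset.coe_univ, Set.image_univ, Set.mem_range]
      refine ⟨pr (w n) v, ?_⟩
      have := dh_pt hv (m := w n) (by rw [hv0])
      rw [hv0] at this
      simp only [hι, this, hi]
    · rw [if_neg hc] at he
      exact absurd rfl he
  refine ⟨?_, (Finset.finite_toSet _).subset hsub⟩
  have h1 : ∑ᶠ e, g e = ∑ y, g (ι y) := by
    rw [finsum_eq_sum_of_support_subset _ hsub, Finset.sum_image]
    intro x _ y _ h
    exact (pt_inj (Prod.ext_iff.1 h).1).2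
  rw [h1, Finset.mul_sum]
  refine (Finset.abs_sum_le_sum_abs _ _).trans (Finset.sum_le_sum fun y _ => ?_)
  have hs : ∀ v, |σ v| ≤ 1 := by
    intro v
    by_cases hv : v ∈ dh k w
    · rcases hσ.1 v hv with h | h <;> rw [h] <;> simp
    · rw [hσ.2 v hv]; simp
  simp only [hg]
  split_ifs
  · rw [abs_mul, abs_mul, abs_mul, abs_two]
    have h2 : |σ (aa (ι y))| * |σ (bb (ι y))| ≤ 1 * 1 :=
      mul_le_mul (hs _) (hs _) (abs_nonneg _) zero_le_one
    have h3 : |J (ι y)| * (|σ (aa (ι y))| * |σ (bb (ι y))|) ≤ |J (ι y)| * (1 * 1) :=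
      mul_le_mul_of_nonneg_left h2 (abs_nonneg _)
    simp only [hι] at h3 ⊢
    linarith
  · rw [abs_zero]; positivity

theorem no_wall {σ τ : (Fin (k + 1) → ℤ) → ℝ} (hσ : GS aa bb (dh k w) J σ)
    (hτ : GS aa bb (dh k w) J τ) {za zb : ℤ} (h1 : ∀ v : Fin (k + 1) → ℤ, za ≤ v 0 → σ v = τ v)
    (h2 : ∀ v : Fin (k + 1) → ℤ, v 0 ≤ zb → σ v = -τ v)
    (hgen : ∀ T1 T2 : Finset ((Fin (k + 1) → ℤ) × Fin (k + 1)), Disjoint T1 T2 →
      (∃ e, e ∈ T1 ∨ e ∈ T2) → ∑ e ∈ T1, J e ≠ ∑ e ∈ T2, J e)
    (hcheap : ∀ ε : ℝ, 0 < ε → ∀ n0 : ℤ, ∃ z : ℤ, n0 ≤ z ∧ ∑ y : Bx k (w z), |J (pt z y, 0)| < ε) :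
    False := by
  classical
  set d : (Fin (k + 1) → ℤ) × Fin (k + 1) → ℝ :=
    fun e => σ (aa e) * σ (bb e) - τ (aa e) * τ (bb e) with hd
  -- the two ends are separated
  have hzba : zb < za := by
    by_contra hc
    have e1 := h1 (cen k za) le_rfl
    have e2 := h2 (cen k za) (by have : cen k za 0 = za := rfl; omega)
    rcases hσ.1.1 _ (cen_dh w za) with h | h <;> rw [h] at e1 e2 <;> linarith
  have hd0 : ∀ e, d e ≠ 0 → aa e ∈ dh k w ∧ zb ≤ aa e 0 ∧ aa e 0 ≤ za := by
    intro e he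
    refine ⟨?_, ?_, ?_⟩
    · by_contra hc
      apply he
      simp only [hd, hσ.1.2 _ hc, hτ.1.2 _ hc]; ring
    · by_contra hc
      apply he
      have e1 := h2 (aa e) (by omega)
      have e2 := h2 (bb e) (by rcases bb_zero e with h | h <;> omega)
      simp only [hd, e1, e2]; ring
    · by_contra hc
      apply he
      have e1 := h1 (aa e) (by omega)
      have e2 := h1 (bb e) (by rcases bb_zero e with h | h <;> omega)
      simp only [hd, e1, e2]; ring
  have hTf : {e | d e ≠ 0}.Finite := by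
    refine ((dh_fin (k := k) w zb za).prod (Set.finite_univ (α := Fin (k + 1)))).subset ?_
    intro e he
    have h := hd0 e he
    exact ⟨⟨h.1, h.2⟩, Set.mem_univ _⟩
  have hff : {e | J e * d e ≠ 0}.Finite := hTf.subset fun e he h0 => he (by
    have : d e = 0 := h0
    rw [this, mul_zero])
  set F : ℝ := ∑ᶠ e, J e * d e with hF
  -- comparison along a flat cut
  have hcmp : ∀ n : ℤ, za ≤ n → |F| < 2 * ∑ y : Bx k (w n), |J (pt n y, 0)| := by
    intro n hn
    have hside : ∀ f g : (Fin (k + 1) → ℤ) → ℝ, GS aa bb (dh k w) J f → GS aa bb (dh k w) J g →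
        (∀ v : Fin (k + 1) → ℤ, za ≤ v 0 → f v = g v) →
        (∀ v : Fin (k + 1) → ℤ, v 0 ≤ zb → f v = -g v) →
        {e | J e * (f (aa e) * f (bb e) - g (aa e) * g (bb e)) ≠ 0}.Finite →
        -∑ᶠ e, J e * (f (aa e) * f (bb e) - g (aa e) * g (bb e)) <
          2 * ∑ y : Bx k (w n), |J (pt n y, 0)| := by
      intro f g hf hg k1 k2 hfin
      set ρ : (Fin (k + 1) → ℤ) → ℝ := fun v => if v 0 ≤ n then -g v else f v with hρ
      have hC : Cf (dh k w) ρ := by
        refine ⟨fun v hv => ?_, fun v hv => ?_⟩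
        · simp only [hρ]
          split_ifs
          · exact hg.1.neg.1 v hv
          · exact hf.1.1 v hv
        · simp only [hρ]
          split_ifs
          · exact hg.1.neg.2 v hv
          · exact hf.1.2 v hv
      have hfi : {v | ρ v ≠ f v}.Finite := by
        refine (dh_fin (k := k) w zb n).subset ?_
        intro v hv
        simp only [Set.mem_setOf_eq, hρ] at hv
        by_cases hvn : v 0 ≤ n
        · rw [if_pos hvn] at hv
          refine ⟨?_, ?_, hvn⟩
          · by_contra hc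
            apply hv
            rw [hf.1.2 _ hc, hg.1.2 _ hc, neg_zero]
          · by_contra hc
            apply hv
            rw [k2 v (by omega)]
        · rw [if_neg hvn] at hv
          exact absurd rfl hv
      have hne : ρ ≠ f := by
        intro he
        have e1 := congrFun he (cen k n)
        have e0 : cen k n 0 = n := rfl
        simp only [hρ, e0, le_refl, if_true] at e1
        rw [← k1 (cen k n) (by rw [e0]; exact hn)] at e1
        rcases hf.1.1 _ (cen_dh w n) with h | h <;> rw [h] at e1 <;> linarith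
      have hlt := hf.2 ρ hC hfi hne
      have hsum : ∀ e, J e * (f (aa e) * f (bb e) - ρ (aa e) * ρ (bb e)) =
          J e * (f (aa e) * f (bb e) - g (aa e) * g (bb e)) +
          (if aa e 0 = n ∧ bb e 0 = n + 1 then 2 * (J e * (f (aa e) * f (bb e))) else 0) := by
        intro e
        simp only [hρ]
        rcases bb_zero e with hb | hb
        · have hc : ¬ (aa e 0 = n ∧ bb e 0 = n + 1) := by omega
          rw [if_neg hc, hb]
          by_cases ha : aa e 0 ≤ n
          · simp only [ha, if_true]; ring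
          · simp only [ha, if_false]
            rw [← k1 (aa e) (by omega), ← k1 (bb e) (by omega)]; ring
        · rcases lt_trichotomy (aa e 0) n with ha | ha | ha
          · have hc : ¬ (aa e 0 = n ∧ bb e 0 = n + 1) := by omega
            have c1 : aa e 0 ≤ n := by omega
            have c2 : bb e 0 ≤ n := by omega
            rw [if_neg hc, if_pos c1, if_pos c2]; ring
          · have hc : aa e 0 = n ∧ bb e 0 = n + 1 := by omega
            have c1 : aa e 0 ≤ n := by omega
            have c2 : ¬ bb e 0 ≤ n := by omega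
            rw [if_pos hc, if_pos c1, if_neg c2]
            rw [← k1 (aa e) (by omega), ← k1 (bb e) (by omega)]; ring
          · have hc : ¬ (aa e 0 = n ∧ bb e 0 = n + 1) := by omega
            have c1 : ¬ aa e 0 ≤ n := by omega
            have c2 : ¬ bb e 0 ≤ n := by omega
            rw [if_neg hc, if_neg c1, if_neg c2]
            rw [← k1 (aa e) (by omega), ← k1 (bb e) (by omega)]; ring
      have hcut := cut_le (J := J) hf.1 n
      rw [finsum_congr hsum, finsum_add_distrib hfin hcut.2] at hlt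
      have := (abs_le.1 hcut.1).2
      linarith
    have s1 := hside σ τ hσ hτ h1 h2 hff
    have hrev : ∀ e, J e * (τ (aa e) * τ (bb e) - σ (aa e) * σ (bb e)) = -(J e * d e) := by
      intro e; simp only [hd]; ring
    have s2 := hside τ σ hτ hσ (fun v hv => (h1 v hv).symm)
      (fun v hv => by rw [h2 v hv, neg_neg]) (by
        refine hff.subset fun e he => ?_
        simp only [Set.mem_setOf_eq] at he ⊢
        rw [hrev] at he
        exact neg_ne_zero.1 he)
    rw [finsum_congr hrev, finsum_neg_distrib, neg_neg] at s2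
    rw [abs_lt]
    exact ⟨by linarith, s2⟩
  -- the wall has energy zero
  have hF0 : F = 0 := by
    by_contra hc
    have hpos : 0 < |F| := abs_pos.2 hc
    obtain ⟨z, hz, hlt⟩ := hcheap (|F| / 2) (by positivity) za
    have := hcmp z hz
    linarith
  -- but the couplings are generic
  set T : Finset ((Fin (k + 1) → ℤ) × Fin (k + 1)) := hTf.toFinset with hT
  have memT : ∀ e, e ∈ T ↔ d e ≠ 0 := by intro e; simp [hT]
  set T1 := T.filter (fun e => d e = 2) with hT1
  set T2 := T.filter (fun e => d e = -2) with hT2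
  have hval : ∀ e, d e = 0 ∨ d e = 2 ∨ d e = -2 := by
    intro e
    simp only [hd]
    by_cases ha : aa e ∈ dh k w
    · by_cases hb : bb e ∈ dh k w
      · rcases hσ.1.1 _ ha with e1 | e1 <;> rcases hσ.1.1 _ hb with e2 | e2 <;>
          rcases hτ.1.1 _ ha with e3 | e3 <;> rcases hτ.1.1 _ hb with e4 | e4 <;>
          rw [e1, e2, e3, e4] <;> norm_num
      · left; rw [hσ.1.2 _ hb, hτ.1.2 _ hb]; ring
    · left; rw [hσ.1.2 _ ha, hτ.1.2 _ ha]; ring
  have hFsum : F = 2 * (∑ e ∈ T1, J e - ∑ e ∈ T2, J e) := by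
    rw [hF, finsum_eq_sum_of_support_subset (s := T) _ (by
      intro e he
      rw [Function.mem_support] at he
      rw [Finset.mem_coe, memT]
      intro h0
      exact he (by rw [h0, mul_zero]))]
    rw [hT1, hT2, Finset.sum_filter, Finset.sum_filter, ← Finset.sum_sub_distrib, Finset.mul_sum]
    refine Finset.sum_congr rfl fun e _ => ?_
    rcases hval e with h | h | h <;> rw [h] <;> norm_num
    · ring
    · ring
  obtain ⟨n, hn⟩ : ∃ n : ℤ, d (cen k n, 0) ≠ 0 := by
    by_contra hcon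
    push Not at hcon
    set s : ℤ → ℝ := fun n => σ (cen k n) * τ (cen k n) with hs
    have hper : Function.Periodic s 1 := by
      intro n
      have h3 := hcon n
      simp only [hd, bb_cen] at h3
      have e0 : aa (cen k n, (0 : Fin (k + 1))) = cen k n := rfl
      rw [e0] at h3
      simp only [hs]
      rcases hσ.1.1 _ (cen_dh w n) with e1 | e1 <;>
        rcases hσ.1.1 _ (cen_dh w (n + 1)) with e2 | e2 <;>
        rcases hτ.1.1 _ (cen_dh w n) with e3 | e3 <;>
        rcases hτ.1.1 _ (cen_dh w (n + 1)) with e4 | e4 <;>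
        rw [e1, e2, e3, e4] at h3 ⊢ <;> first | (exfalso; norm_num at h3; done) | norm_num
    have ha := hper.int_mul_eq za
    have hb := hper.int_mul_eq zb
    rw [mul_one] at ha hb
    have e1 := h1 (cen k za) le_rfl
    have e2 := h2 (cen k zb) le_rfl
    rw [← hb] at ha
    simp only [hs, Int.cast_id] at ha
    rw [e1, e2] at ha
    rcases hτ.1.1 _ (cen_dh w za) with h | h <;> rcases hτ.1.1 _ (cen_dh w zb) with h' | h' <;>
      rw [h, h'] at ha <;> norm_num at ha
  refine hgen T1 T2 ?_ ⟨(cen k n, 0), ?_⟩ ?_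
  · rw [Finset.disjoint_left]
    intro e e1 e2
    rw [hT1, Finset.mem_filter] at e1
    rw [hT2, Finset.mem_filter] at e2
    linarith [e1.2, e2.2]
  · rw [hT1, hT2, Finset.mem_filter, Finset.mem_filter, memT]
    rcases hval (cen k n, 0) with h | h | h
    · exact absurd h hn
    · exact Or.inl ⟨hn, h⟩
    · exact Or.inr ⟨hn, h⟩
  · rw [hF0] at hFsum
    linarith

end Pool.Agent.X215.DH
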